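import Pool.Agent.H51.LZ.Ch

/-!
# A plurisubharmonic function on a compact connected manifold is constant
-/

set_option autoImplicit false

open Set Filter Topology Metric MeasureTheory
open scoped Manifold

namespace Pool.Agent.H51.LZ

/-- An upper semicontinuous function on the unit circle, at most `m` and somewhere smaller, has a
continuous majorant of average less than `m`. -/
theorem exists_majorant_lt {F : ℂ → EReal} (husc : UpperSemicontinuousOn F (sphere 0 1)) {m : ℝ}
    (hle : ∀ z ∈ sphere (0 : ℂ) 1, F z ≤ m) {z₁ : ℂ} (hz₁ : z₁ ∈ sphere (0 : ℂ) 1)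
    (hlt : F z₁ < m) :
    ∃ b : ℂ → ℝ, Continuous b ∧ (∀ z ∈ sphere (0 : ℂ) 1, F z ≤ (b z : EReal)) ∧
      Real.circleAverage b 0 1 < m := by
  obtain ⟨m', hm'1, hm'2⟩ := EReal.lt_iff_exists_real_btwn.1 hlt
  have hm'2' : m' < m := by exact_mod_cast hm'2
  have hnb := husc z₁ hz₁ m' hm'1
  rw [eventually_nhdsWithin_iff, Metric.eventually_nhds_iff] at hnb
  obtain ⟨δ, hδ, hnb⟩ := hnb
  set b : ℂ → ℝ := fun w => m - (m - m') * max 0 (1 - dist w z₁ / δ) with hb
  have hbc : Continuous b := by
    simp only [hb]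
    fun_prop
  have hk0 : ∀ w, 0 ≤ max 0 (1 - dist w z₁ / δ) := fun w => le_max_left _ _
  have hk1 : ∀ w, max 0 (1 - dist w z₁ / δ) ≤ 1 := fun w => by
    refine max_le zero_le_one ?_
    have : 0 ≤ dist w z₁ / δ := by positivity
    linarith
  have hbm : ∀ w, b w ≤ m := fun w => by
    have := mul_nonneg (sub_nonneg.2 hm'2'.le) (hk0 w)
    simp only [hb]
    linarith
  have hbm' : ∀ w, m' ≤ b w := fun w => by
    have := mul_le_mul_of_nonneg_left (hk1 w) (sub_nonneg.2 hm'2'.le)
    simp only [hb]
    linarith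
  refine ⟨b, hbc, fun w hw => ?_, average_lt one_pos hbc.continuousOn (fun w _ => hbm w) hz₁ ?_⟩
  · by_cases hd : dist w z₁ < δ
    · exact (hnb hd hw).le.trans (by exact_mod_cast hbm' w)
    · have h1 : max 0 (1 - dist w z₁ / δ) = 0 := by
        refine max_eq_left ?_
        rw [not_lt] at hd
        have : 1 ≤ dist w z₁ / δ := by rwa [le_div_iff₀ hδ, one_mul]
        linarith
      have h2 : b w = m := by simp only [hb, h1, mul_zero, sub_zero]
      rw [h2]
      exact hle w hw
  · have : b z₁ = m' := by simp [hb]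
    rw [this]
    exact hm'2'

variable {n : ℕ} {X : Type} [TopologicalSpace X] [ChartedSpace (Cn n) X]

/-- If `f ≤ m` on a disc, with equality at the centre, then `f = m` on the circle. -/
theorem Psh.eq_of_disc {U : Set X} {f : X → EReal} (hf : Psh n U f) {h : ℂ → X}
    (hd : IsDisc n U h) {m : ℝ} (hle : ∀ z ∈ sphere (0 : ℂ) 1, f (h z) ≤ m) (h0 : f (h 0) = m)
    {z : ℂ} (hz : z ∈ sphere (0 : ℂ) 1) : f (h z) = m := by
  by_contra hne
  have hlt : f (h z) < m := lt_of_le_of_ne (hle z hz) hne
  have husc : UpperSemicontinuousOn (fun z => f (h z)) (sphere 0 1) := by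
    have hmap : MapsTo h (sphere 0 1) U := fun w hw =>
      hd.2 w (le_of_eq (by simpa using hw))
    exact hf.1.comp (hd.continuousOn.mono sphere_subset_closedBall) hmap
  obtain ⟨b, hbc, hb, havg⟩ := exists_majorant_lt husc hle hz hlt
  have h1 := hf.2.2 h hd b hbc.continuousOn hb
  rw [h0] at h1
  have h2 : m ≤ Real.circleAverage b 0 1 := by exact_mod_cast h1
  linarith

/-- A plurisubharmonic function on a compact connected complex manifold is constant. -/
theorem Psh.eq_const [CompactSpace X] [ConnectedSpace X] [IsManifold 𝓘(ℂ, Cn n) 1 X]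
    {S : X → EReal} (hS : Psh n univ S) : ∃ M : EReal, M ≠ ⊤ ∧ ∀ x, S x = M := by
  obtain ⟨x₀, -, hmax⟩ := hS.1.exists_isMaxOn univ_nonempty isCompact_univ
  have hle : ∀ x, S x ≤ S x₀ := fun x => hmax (mem_univ x)
  refine ⟨S x₀, hS.2.1 x₀ (mem_univ _), ?_⟩
  by_cases hbot : S x₀ = ⊥
  · intro x
    have := hle x
    rw [hbot] at this ⊢
    exact le_bot_iff.1 this
  obtain ⟨m, hm⟩ : ∃ m : ℝ, S x₀ = m :=
    ⟨(S x₀).toReal, (EReal.coe_toReal (hS.2.1 x₀ (mem_univ _)) hbot).symm⟩
  rw [hm] at hle ⊢
  have husc : UpperSemicontinuous S := upperSemicontinuousOn_univ_iff.1 hS.1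
  have hclosed : IsClosed {x | S x = m} := by
    have h1 : {x | S x = m} = S ⁻¹' Ici (m : EReal) := by
      ext x
      exact ⟨fun h => ge_of_eq h, fun h => le_antisymm (hle x) h⟩
    rw [h1]
    exact husc.isClosed_preimage (m : EReal)
  have hopen : IsOpen {x | S x = m} := by
    rw [isOpen_iff_mem_nhds]
    intro x hx
    set e := chartAt (Cn n) x with he
    have hea : e ∈ atlas (Cn n) X := chart_mem_atlas (Cn n) x
    have hxe : x ∈ e.source := mem_chart_source (Cn n) x
    obtain ⟨ρ, hρ, hball⟩ := Metric.isOpen_iff.1 e.open_target (e x) (e.map_source hxe)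
    have hnhds : e.source ∩ e ⁻¹' ball (e x) ρ ∈ 𝓝 x :=
      (e.continuousOn.isOpen_inter_preimage e.open_source isOpen_ball).mem_nhds
        ⟨hxe, mem_ball_self hρ⟩
    refine mem_of_superset hnhds ?_
    rintro y ⟨hye, hyb⟩
    have hyb' : ‖e y - e x‖ < ρ := by simpa [dist_eq_norm] using hyb
    have hd : IsDisc n univ (fun z => e.symm (e x + z • (e y - e x))) := by
      refine isDisc_affine hea (e x) (e y - e x) fun z hz => ⟨hball ?_, mem_univ _⟩
      rw [mem_ball, dist_eq_norm, add_sub_cancel_left, norm_smul]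
      exact lt_of_le_of_lt (mul_le_of_le_one_left (norm_nonneg _) hz) hyb'
    have h0 : S ((fun z : ℂ => e.symm (e x + z • (e y - e x))) 0) = m := by
      simp only [zero_smul, add_zero, e.left_inv hxe]
      exact hx
    have h1 := hS.eq_of_disc hd (fun z _ => hle _) h0 (z := 1) (by simp)
    simp only [one_smul, add_sub_cancel, e.left_inv hye] at h1
    exact h1
  have huniv : {x | S x = m} = univ :=
    IsClopen.eq_univ ⟨hclosed, hopen⟩ ⟨x₀, hm⟩
  intro x
  have : x ∈ {x | S x = m} := by rw [huniv]; exact mem_univ x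
  exact this

/-- Two upper semicontinuous functions without the value `∞` whose sum is a real constant are real
and continuous. -/
theorem exists_continuousMap_of_add_eq {X : Type} [TopologicalSpace X] {f g : X → EReal}
    (hf : UpperSemicontinuous f) (hg : UpperSemicontinuous g) (hft : ∀ x, f x ≠ ⊤)
    (hgt : ∀ x, g x ≠ ⊤) {m : ℝ} (hm : ∀ x, f x + g x = m) :
    ∃ F : C(X, ℝ), ∀ x, f x = (F x : EReal) ∧ g x = ((m - F x : ℝ) : EReal) := by
  have hfb : ∀ x, f x ≠ ⊥ := fun x h => by
    have := hm x
    rw [h, EReal.bot_add] at this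
    exact EReal.bot_ne_coe _ this
  have hgb : ∀ x, g x ≠ ⊥ := fun x h => by
    have := hm x
    rw [h, EReal.add_bot] at this
    exact EReal.bot_ne_coe _ this
  have hF : ∀ x, f x = ((f x).toReal : EReal) := fun x => (EReal.coe_toReal (hft x) (hfb x)).symm
  have hG : ∀ x, g x = ((m - (f x).toReal : ℝ) : EReal) := by
    intro x
    have h1 : g x = ((g x).toReal : EReal) := (EReal.coe_toReal (hgt x) (hgb x)).symm
    have h2 := hm x
    rw [hF x, h1, ← EReal.coe_add] at h2
    have h3 : (f x).toReal + (g x).toReal = m := by exact_mod_cast h2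
    rw [h1]
    exact_mod_cast eq_sub_of_add_eq' h3
  have hcont : Continuous fun x => (f x).toReal := by
    rw [continuous_iff_continuousAt]
    intro x
    rw [ContinuousAt, tendsto_order]
    constructor
    · intro a ha
      have h1 : g x < ((m - a : ℝ) : EReal) := by
        rw [hG x]
        exact_mod_cast sub_lt_sub_left ha m
      filter_upwards [hg x _ h1] with y hy
      rw [hG y] at hy
      have h2 : m - (f y).toReal < m - a := by exact_mod_cast hy
      linarith
    · intro a ha
      have h1 : f x < (a : EReal) := by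
        rw [hF x]
        exact_mod_cast ha
      filter_upwards [hf x _ h1] with y hy
      rw [hF y] at hy
      exact_mod_cast hy
  exact ⟨⟨_, hcont⟩, fun x => ⟨hF x, hG x⟩⟩

end Pool.Agent.H51.LZ
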